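import Mathlib
import Pool.Agent.Lib_helper68.OG16
import Pool.Agent.Lib_helper80.CQ.Neg2
import Pool.Agent.Lib_helper80.CQ.Sharp
import Pool.Agent.Lib_helper80.CQ.Erd
import Pool.Agent.Lib_helper80.CQ.Jon
import Pool.Agent.Lib_helper80.CQ.Sing2
import Pool.Agent.Lib_helper80.CQ.Levels
import Pool.Agent.Lib_helper80.CQ.Unb
import Pool.Agent.Lib_helper80.CW.Level2

set_option autoImplicit false

open Cardinal Ordinal

namespace Pool.Agent.Results.MP_931ca8_lc.FreeSequenceCriterion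

/-- `P(α)`: every graph whose vertex set is (the canonical well-ordered set of type) `α` has an
infinite path, i.e. an injective sequence of vertices with consecutive terms adjacent, or a set
of pairwise non-adjacent vertices of order type exactly `α`. -/
def PathOrIndep (α : Ordinal.{0}) : Prop :=
  ∀ G : SimpleGraph α.ToType,
    (∃ f : ℕ → α.ToType, Function.Injective f ∧ ∀ n, G.Adj (f n) (f (n + 1))) ∨
    (∃ S : Set α.ToType, (∀ x ∈ S, ∀ y ∈ S, ¬ G.Adj x y) ∧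
      Ordinal.type (fun x y : S => x < y) = α)

/-- Whenever a finite subset `F i` of `κ` is attached to every `i < δ`, there is `c < κ` such
that `{i < δ : c ∉ F i}` has order type `δ`. -/
def Omit (κ : Cardinal.{0}) (δ : Ordinal.{0}) : Prop :=
  ∀ F : δ.ToType → Finset κ.ord.ToType, ∃ c,
    Ordinal.type (fun x y : {i : δ.ToType | c ∉ F i} => x < y) = δ

/-- Whenever a finite subset of `κ` is attached to every finite sequence in `κ`, there is an
infinite sequence `x` such that `x m` is not in the set attached to `x (m+1), …, x (m+k)`, for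
all `m` and `k`. -/
def RevFree (κ : Cardinal.{0}) : Prop :=
  ∀ E : List κ.ord.ToType → Finset κ.ord.ToType, ∃ x : ℕ → κ.ord.ToType,
    ∀ m k, x m ∉ E ((List.range k).map fun i => x (m + 1 + i))

/-- `κ` is a Jónsson cardinal: every algebra with countably many finitary operations on `κ` has
a proper subalgebra of cardinality `κ`. -/
def Jonsson (κ : Cardinal.{0}) : Prop :=
  ∀ f : ℕ → List κ.ord.ToType → κ.ord.ToType, ∃ H : Set κ.ord.ToType, H ≠ Set.univ ∧
    #H = κ ∧ ∀ n L, (∀ a ∈ L, a ∈ H) → f n L ∈ H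

/-- `κ → (ω) ^ {< ω}` with countably many colours: every colouring of the finite subsets of `κ`
by natural numbers has an infinite set on whose finite subsets the colour only depends on the
number of elements. -/
def ErdosOmega (κ : Cardinal.{0}) : Prop :=
  ∀ c : Finset κ.ord.ToType → ℕ, ∃ H : Set κ.ord.ToType, H.Infinite ∧
    ∀ s t : Finset κ.ord.ToType, (∀ a ∈ s, a ∈ H) → (∀ a ∈ t, a ∈ H) → s.card = t.card →
      c s = c t

/-- `κ` has countable cofinality, or `μ ^ cof κ < κ` for all `μ < κ`. -/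
def PowSmall (κ : Cardinal.{0}) : Prop := κ.ord.cof = ℵ₀ ∨ ∀ μ < κ, μ ^ κ.ord.cof < κ

/-- The generalized continuum hypothesis. -/
def GCH : Prop := ∀ κ : Cardinal.{0}, ℵ₀ ≤ κ → (2 : Cardinal.{0}) ^ κ = Order.succ κ

/-- The path property `P` is decided by the omission property `Omit` at regular cardinals.
Criterion: (1) one level, (2) all levels. Where `Omit` holds and where it fails: (3) in terms of
reverse-free sequences, (4) for which cardinals these exist. Hence: (5) consequences of the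
conjecture, (6) of single cases at `ω₂`. -/
theorem result :
    -- (1) one level: the ordinals `κ * δ + ε` of regular cardinality `κ`
    (∀ κ : Cardinal.{0}, κ.IsRegular → ℵ₀ < κ → ∀ δ ε : Ordinal.{0}, δ.card ≤ κ →
      ε < κ.ord → ω ∣ ε →
      (Omit κ δ → (PathOrIndep (κ.ord * δ + ε) ↔ PathOrIndep ε)) ∧
      ((∀ μ < κ, (2 : Cardinal.{0}) ^ μ ≤ κ) →
        (PathOrIndep (κ.ord * δ + ε) ↔ Omit κ δ ∧ PathOrIndep ε))) ∧
    -- (2) all levels: `α % (Order.succ κ).ord / κ.ord` is the part of `α` at `κ`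
    (∀ α : Ordinal.{0}, ω ∣ α →
      ((∀ κ : Cardinal.{0}, ℵ₀ < κ → ¬ κ.IsRegular → ¬ PowSmall κ →
          α % (Order.succ κ).ord < κ.ord) →
        (∀ κ : Cardinal.{0}, κ.IsRegular → ℵ₀ < κ → Omit κ (α % (Order.succ κ).ord / κ.ord)) →
        PathOrIndep α) ∧
      (∀ κ : Cardinal.{0}, κ.IsRegular → ℵ₀ < κ → (∀ μ < κ, (2 : Cardinal.{0}) ^ μ ≤ κ) →
        PathOrIndep α → Omit κ (α % (Order.succ κ).ord / κ.ord)) ∧
      (GCH → (PathOrIndep α ↔ ∀ κ : Cardinal.{0}, κ.IsRegular → ℵ₀ < κ →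
        Omit κ (α % (Order.succ κ).ord / κ.ord)))) ∧
    -- (3) for which `δ` the omission property holds
    (∀ κ : Cardinal.{0}, ℵ₀ ≤ κ →
      (RevFree κ → (∀ δ, Omit κ δ) ∧ ∀ α : Ordinal.{0}, ω ∣ α →
        (PathOrIndep α ↔ PathOrIndep (α % (Order.succ κ).ord)) ∧
        (κ.IsRegular → (PathOrIndep α ↔ PathOrIndep (α % κ.ord)))) ∧
      (¬ RevFree κ → ∀ γ : Ordinal.{0}, γ.card ≤ κ →
        ∃ δ : Ordinal.{0}, γ ≤ δ ∧ δ.card ≤ κ ∧ ¬ Omit κ δ) ∧
      (κ ^ Cardinal.aleph 1 ≤ κ → ∀ γ : Ordinal.{0}, γ.card ≤ κ →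
        ∃ δ : Ordinal.{0}, γ ≤ δ ∧ δ.card ≤ κ ∧ Omit κ δ)) ∧
    -- (4) the cardinals with reverse-free sequences
    ((∀ n : ℕ, ¬ RevFree (Cardinal.aleph n)) ∧
      (∀ κ : Cardinal.{0}, ℵ₀ ≤ κ → (RevFree (Order.succ κ) ↔ RevFree κ)) ∧
      (∀ κ κ' : Cardinal.{0}, κ ≤ κ' → RevFree κ → RevFree κ') ∧
      ∀ κ : Cardinal.{0}, ℵ₀ ≤ κ → (Jonsson κ ∨ ErdosOmega κ) → RevFree κ) ∧
    -- (5) consequences of the conjecture
    ((∀ α : Ordinal.{0}, Order.IsSuccLimit α → PathOrIndep α) →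
      (∀ n : ℕ, Cardinal.aleph (n + 1) < (2 : Cardinal.{0}) ^ Cardinal.aleph n) ∧
      ∀ κ : Cardinal.{0}, κ.IsRegular → ℵ₀ < κ → (∀ μ < κ, (2 : Cardinal.{0}) ^ μ ≤ κ) →
        RevFree κ) ∧
    -- (6) consequences of single cases
    ∀ α : Ordinal.{0},
      (Cardinal.aleph 2).ord ^ ((Cardinal.aleph 1).ord + 2) ≤ α % (Cardinal.aleph 3).ord →
      α % (Cardinal.aleph 3).ord < (Cardinal.aleph 2).ord ^ (Cardinal.aleph 2).ord →
      PathOrIndep α → Cardinal.aleph 2 < (2 : Cardinal.{0}) ^ Cardinal.aleph 1 := by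
  have hpart : ∀ κ : Cardinal.{0}, RevFree κ → ∀ δ, Omit κ δ := fun κ h δ =>
    Pool.Agent.CQ.part_of_rf h δ
  have hconv : ∀ κ : Cardinal.{0}, ℵ₀ ≤ κ →
      (∀ δ : Ordinal.{0}, δ.card ≤ κ → Omit κ δ) → RevFree κ := by
    intro κ hκ h
    by_contra hcon
    obtain ⟨δ, hδ, hP⟩ := Pool.Agent.CQ.not_part_of_not_rf hκ hcon
    exact hP (h δ hδ)
  have h1 : ∀ κ : Cardinal.{0}, κ.IsRegular → ℵ₀ < κ → ∀ δ ε : Ordinal.{0}, δ.card ≤ κ →
      ε < κ.ord → ω ∣ ε → Omit κ δ → (PathOrIndep (κ.ord * δ + ε) ↔ PathOrIndep ε) :=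
    fun κ hκ hκ0 δ ε hδ hε hd h => Pool.Agent.CQ.pi_iff_of_part hκ hκ0 δ ε hδ h hε hd
  have h2 : ∀ κ : Cardinal.{0}, κ.IsRegular → ℵ₀ < κ → ∀ δ ε : Ordinal.{0}, δ.card ≤ κ →
      ε < κ.ord → (∀ μ < κ, (2 : Cardinal.{0}) ^ μ ≤ κ) → PathOrIndep (κ.ord * δ + ε) →
        Omit κ δ := by
    intro κ hκ hκ0 δ ε hδ hε hc hP
    by_contra hcon
    exact Pool.Agent.CQ.not_pi hκ hκ0 hc δ ε hδ hcon hε hP
  have h3 : ∀ κ : Cardinal.{0}, κ.IsRegular → ℵ₀ < κ → (∀ μ < κ, (2 : Cardinal.{0}) ^ μ ≤ κ) →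
      (∀ δ : Ordinal.{0}, δ.card ≤ κ → PathOrIndep (κ.ord * δ)) → RevFree κ := by
    intro κ hκ hκ0 hc hP
    refine hconv κ hκ.1 fun δ hδ => ?_
    refine h2 κ hκ hκ0 δ 0 hδ (Cardinal.ord_pos.2 hκ.pos) hc ?_
    rw [add_zero]
    exact hP δ hδ
  have hpi0 : PathOrIndep 0 := Pool.Agent.H68.OG.pi_zero
  have hmono : ∀ κ κ' : Cardinal.{0}, κ ≤ κ' → RevFree κ → RevFree κ' := fun κ κ' hκ h =>
    Pool.Agent.CQ.rf_mono hκ h
  have hpred : ∀ κ : Cardinal.{0}, ℵ₀ ≤ κ → RevFree (Order.succ κ) → RevFree κ := fun κ hκ h =>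
    Pool.Agent.CQ.RF.pred hκ h
  have haleph : ∀ n : ℕ, ¬ RevFree (Cardinal.aleph n) := by
    intro n
    induction n with
    | zero =>
      intro h
      have h5 : #(Cardinal.aleph (0 : ℕ)).ord.ToType ≤ #ℕ := by
        rw [Cardinal.mk_toType, Cardinal.card_ord, Nat.cast_zero, Cardinal.aleph_zero,
          Cardinal.mk_nat]
      obtain ⟨i⟩ := (Cardinal.le_def _ _).1 h5
      exact Pool.Agent.CQ.not_rf_nat (Pool.Agent.CQ.RF.mono i i.injective h)
    | succ n ih =>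
      intro h
      refine ih (hpred _ (Cardinal.aleph0_le_aleph _) ?_)
      rw [Cardinal.succ_aleph]
      rw [Nat.cast_succ] at h
      exact h
  -- limit ordinals `κ * δ`
  have hlim : ∀ κ : Cardinal.{0}, ℵ₀ ≤ κ → ∀ δ : Ordinal.{0}, δ ≠ 0 →
      Order.IsSuccLimit (κ.ord * δ) := by
    intro κ hκ δ hδ
    refine ⟨?_, Ordinal.isSuccPrelimit_iff_omega0_dvd.2 ?_⟩
    · rw [isMin_iff_eq_bot]
      exact mul_ne_zero (Cardinal.ord_pos.2 (aleph0_pos.trans_le hκ)).ne' hδ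
    · have h5 : ω ∣ κ.ord := by
        have h6 := Pool.Agent.H68.OG.ord_dvd_ord (μ := ℵ₀) (κ := κ) le_rfl hκ
        rwa [Cardinal.ord_aleph0] at h6
      exact h5.mul_right δ
  refine ⟨?_, ?_, ?_, ⟨haleph, ?_, hmono, ?_⟩, ?_, ?_⟩
  · intro κ hκ hκ0 δ ε hδ hε hd
    refine ⟨h1 κ hκ hκ0 δ ε hδ hε hd, fun hc => ⟨fun hP => ?_, fun hP => ?_⟩⟩
    · exact ⟨h2 κ hκ hκ0 δ ε hδ hε hc hP, Pool.Agent.H68.OG.pi_tail hP⟩
    · exact (h1 κ hκ hκ0 δ ε hδ hε hd hP.1).2 hP.2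
  · exact fun α hα => ⟨fun hs hr => Pool.Agent.CW.pi_levels2 α hα hs hr,
      fun κ hκ hκ0 hc hP => Pool.Agent.CQ.part_of_pi hκ hκ0 hc hP,
      fun hgch => Pool.Agent.CW.pi_gch hgch α hα⟩
  · intro κ hκ
    refine ⟨fun hR => ⟨hpart κ hR, fun α hα => ?_⟩,
      fun h γ hγ => Pool.Agent.CQ.unb_not_part hκ h γ hγ, fun h γ hγ => ?_⟩
    · refine ⟨⟨fun h => Pool.Agent.CQ.pi_mod h, fun h => Pool.Agent.CQ.pi_of_mod hκ hR α hα h⟩,
        fun hr => ⟨fun h => Pool.Agent.CQ.pi_mod h, fun h => ?_⟩⟩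
      refine Pool.Agent.CQ.pi_of_mod' hr ?_ hR α hα h
      refine lt_of_le_of_ne hκ ?_
      rintro rfl
      refine haleph 0 ?_
      rw [Nat.cast_zero, Cardinal.aleph_zero]
      exact hR
    refine Pool.Agent.CQ.unb_part h ?_ γ hγ
    have h5 : (2 : Cardinal.{0}) ^ Cardinal.aleph 1 ≤ κ :=
      (Cardinal.power_le_power_right ((Cardinal.ofNat_lt_aleph0 (n := 2)).le.trans hκ)).trans h
    exact (Cardinal.cantor _).le.trans h5
  · exact fun κ hκ => ⟨hpred κ hκ, hmono _ _ (Order.le_succ κ)⟩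
  · rintro κ hκ (h | h)
    · have hN : Nonempty κ.ord.ToType := by
        rw [← Cardinal.mk_ne_zero_iff, Cardinal.mk_toType, Cardinal.card_ord]
        exact (aleph0_pos.trans_le hκ).ne'
      refine Pool.Agent.CQ.rf_of_jonsson hN fun f => ?_
      obtain ⟨H, h5, h6, h7⟩ := h f
      refine ⟨H, h5, ?_, h7⟩
      rw [h6, Cardinal.mk_toType, Cardinal.card_ord]
    · exact Pool.Agent.CQ.rf_of_erdos h
  · intro hA
    have hA' : ∀ κ : Cardinal.{0}, κ.IsRegular → ∀ δ : Ordinal.{0}, PathOrIndep (κ.ord * δ) := by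
      intro κ hκ δ
      rcases eq_or_ne δ 0 with rfl | hδ
      · rw [mul_zero]
        exact hpi0
      · exact hA _ (hlim κ hκ.1 δ hδ)
    have key : ∀ κ : Cardinal.{0}, κ.IsRegular → ℵ₀ < κ →
        (∀ μ < κ, (2 : Cardinal.{0}) ^ μ ≤ κ) → RevFree κ :=
      fun κ hκ hκ0 hc => h3 κ hκ hκ0 hc fun δ _ => hA' κ hκ δ
    refine ⟨fun n => ?_, key⟩
    by_contra hlt
    rw [not_lt] at hlt
    have e : (Cardinal.aleph (n + 1) : Cardinal.{0}) = Order.succ (Cardinal.aleph n) := by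
      rw [Cardinal.succ_aleph]
    refine haleph (n + 1) ?_
    rw [Nat.cast_add, Nat.cast_one, e]
    refine key _ (Cardinal.isRegular_succ (Cardinal.aleph0_le_aleph _))
      (Order.lt_succ_of_le (Cardinal.aleph0_le_aleph _)) ?_
    intro ν hν
    rw [e] at hlt
    exact (Cardinal.power_le_power_left two_ne_zero (Order.lt_succ_iff.1 hν)).trans hlt
  · intro α hα1 hα2 hP
    by_contra hcon
    rw [not_lt] at hcon
    have e : (Cardinal.aleph 2 : Cardinal.{0}) = Order.succ (Cardinal.aleph 1) := by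
      rw [Cardinal.succ_aleph, one_add_one_eq_two]
    have e3 : (Cardinal.aleph 3 : Cardinal.{0}) = Order.succ (Cardinal.aleph 2) := by
      rw [Cardinal.succ_aleph, two_add_one_eq_three]
    have hκ : (Cardinal.aleph 2 : Cardinal.{0}).IsRegular := by
      rw [e]
      exact Cardinal.isRegular_succ (Cardinal.aleph0_le_aleph 1)
    have hκ0 : ℵ₀ < (Cardinal.aleph 2 : Cardinal.{0}) := by
      rw [e]
      exact Order.lt_succ_of_le (Cardinal.aleph0_le_aleph 1)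
    have hc : ∀ μ < (Cardinal.aleph 2 : Cardinal.{0}), (2 : Cardinal.{0}) ^ μ ≤
        Cardinal.aleph 2 := by
      intro μ hμ
      rw [e] at hμ
      exact (Cardinal.power_le_power_left two_ne_zero (Order.lt_succ_iff.1 hμ)).trans hcon
    have h30 : (Cardinal.aleph 3 : Cardinal.{0}).ord ≠ 0 := by
      refine (Cardinal.ord_pos.2 ?_).ne'
      exact aleph0_pos.trans_le (Cardinal.aleph0_le_aleph 3)
    have hκ1 : (Cardinal.aleph 2 : Cardinal.{0}).ord ≠ 0 := (Cardinal.ord_pos.2 hκ.pos).ne'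
    have hlt3 : ∀ o : Ordinal.{0}, o < (Cardinal.aleph 3 : Cardinal.{0}).ord ↔
        o.card ≤ Cardinal.aleph 2 := by
      intro o
      rw [Cardinal.lt_ord, e3]
      exact Order.lt_succ_iff
    have hr : PathOrIndep (α % (Cardinal.aleph 3).ord) := Pool.Agent.CQ.pi_mod hP
    have hrlt : α % (Cardinal.aleph 3).ord < (Cardinal.aleph 3).ord := Ordinal.mod_lt α h30
    set r := α % (Cardinal.aleph 3).ord with hrdef
    have hdm := Ordinal.div_add_mod r (Cardinal.aleph 2 : Cardinal.{0}).ord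
    have hle : r / (Cardinal.aleph 2 : Cardinal.{0}).ord ≤ r := by
      have h5 : 1 * (r / (Cardinal.aleph 2 : Cardinal.{0}).ord) ≤
          (Cardinal.aleph 2 : Cardinal.{0}).ord * (r / (Cardinal.aleph 2 : Cardinal.{0}).ord) :=
        mul_le_mul_left (Order.one_le_iff_pos.2 (Cardinal.ord_pos.2 hκ.pos)) _
      rw [one_mul] at h5
      exact h5.trans (Ordinal.mul_div_le _ _)
    have hcard : (r / (Cardinal.aleph 2 : Cardinal.{0}).ord).card ≤ Cardinal.aleph 2 :=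
      (Ordinal.card_le_card hle).trans ((hlt3 r).1 hrlt)
    have hω1 : (1 : Ordinal.{0}) + ((Cardinal.aleph 1).ord + 2) =
        (Cardinal.aleph 1).ord + 2 := by
      rw [← add_assoc, Ordinal.one_add_of_omega0_le]
      rw [← Cardinal.ord_aleph0]
      exact Cardinal.ord_le_ord.2 (Cardinal.aleph0_le_aleph 1)
    refine Pool.Agent.CQ.not_pi hκ hκ0 hc (r / (Cardinal.aleph 2 : Cardinal.{0}).ord)
      (r % (Cardinal.aleph 2 : Cardinal.{0}).ord) hcard
      (Pool.Agent.CQ.not_part_w2 _ ?_ (hle.trans_lt hα2)) (Ordinal.mod_lt _ hκ1) ?_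
    · refine (Ordinal.mul_le_iff_le_div hκ1).1 ?_
      have h6 : (Cardinal.aleph 2 : Cardinal.{0}).ord *
          (Cardinal.aleph 2).ord ^ ((Cardinal.aleph 1).ord + 2) =
          (Cardinal.aleph 2).ord ^ ((Cardinal.aleph 1).ord + 2) := by
        conv_rhs => rw [← hω1, Ordinal.opow_add, Ordinal.opow_one]
      rw [h6]
      exact hα1
    · rw [hdm]
      exact hr

end Pool.Agent.Results.MP_931ca8_lc.FreeSequenceCriterion
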