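import Mathlib
import Pool.Agent.Lib_helper68.OG10
import Pool.Agent.Lib_helper80.CT.Main
import Pool.Agent.Lib_helper80.DA.Main

set_option autoImplicit false

namespace Pool.Agent.Results.MP_931ca8_lc.Independence

/-- `P(α)`: every graph whose vertex set is (the canonical well-ordered set of type) `α` has an
infinite path, i.e. an injective sequence of vertices with consecutive terms adjacent, or a set
of pairwise non-adjacent vertices of order type exactly `α`. -/
def PathOrIndep (α : Ordinal.{0}) : Prop :=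
  ∀ G : SimpleGraph α.ToType,
    (∃ f : ℕ → α.ToType, Function.Injective f ∧ ∀ n, G.Adj (f n) (f (n + 1))) ∨
    (∃ S : Set α.ToType, (∀ x ∈ S, ∀ y ∈ S, ¬ G.Adj x y) ∧
      Ordinal.type (fun x y : S => x < y) = α)

theorem ord_aleph_one : (Cardinal.aleph 1 : Cardinal.{0}).ord = Ordinal.omega 1 :=
  Cardinal.ord_aleph 1

/-- `ℵ₁` partial slaloms which catch all functions refute `P(α)` -/
theorem not_P_of_psl (α : Ordinal.{0})
    (hα : (Cardinal.aleph 1).ord ^ (Ordinal.omega0 + 2) ≤ α % (Cardinal.aleph 2).ord)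
    (hP : PathOrIndep α) (hS : Pool.Agent.CT.PSl (Ordinal.omega 1 : Ordinal.{0}).ToType) :
    False := by
  have hdm := Ordinal.div_add_mod α (Cardinal.aleph 2).ord
  set ε := α % (Cardinal.aleph 2).ord with hε
  have h0 : (Cardinal.aleph 2 : Cardinal.{0}).ord ≠ 0 := by
    rw [Ne, Cardinal.ord_eq_zero]
    exact (Cardinal.aleph_pos 2).ne'
  have hlt : ε < (Cardinal.aleph 2).ord := Ordinal.mod_lt α h0
  have hPε : Pool.Agent.H68.OG.PI ε := by
    have h1 : Pool.Agent.H68.OG.PI ((Cardinal.aleph 2).ord * (α / (Cardinal.aleph 2).ord) + ε) := by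
      rw [hdm]
      exact hP
    exact Pool.Agent.H68.OG.pi_tail h1
  have hcard : Cardinal.mk ε.ToType ≤ Cardinal.aleph 1 := by
    rw [Cardinal.mk_toType]
    have h2 : Cardinal.aleph 2 = Order.succ (Cardinal.aleph 1) := by
      rw [Cardinal.succ_aleph]
      congr 1
      norm_num
    rw [Cardinal.lt_ord, h2] at hlt
    exact Order.lt_succ_iff.1 hlt
  obtain ⟨G, h1, h2⟩ := Pool.Agent.CT.psl_graph hS ε.ToType hcard
  rcases hPε G with h | ⟨S, hS, hS'⟩
  · exact h1 h
  · have h3 := h2 S hS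
    rw [hS', ← Cardinal.ord_aleph 1] at h3
    exact absurd h3 (not_lt.2 hα)

/-- `P(α)` refutes the continuum hypothesis -/
theorem not_ch (α : Ordinal.{0})
    (hα : (Cardinal.aleph 1).ord ^ (Ordinal.omega0 + 2) ≤ α % (Cardinal.aleph 2).ord)
    (hP : PathOrIndep α) : Cardinal.aleph 1 < Cardinal.continuum.{0} := by
  by_contra hcon
  have hCH : Cardinal.continuum.{0} = Cardinal.aleph 1 := by
    refine le_antisymm (not_lt.1 hcon) ?_
    rw [← Cardinal.succ_aleph0]
    exact Order.succ_le_of_lt Cardinal.aleph0_lt_continuum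
  refine not_P_of_psl α hα hP ?_
  have hc : Cardinal.mk (ℕ → ℕ) = Cardinal.mk (Ordinal.omega 1 : Ordinal.{0}).ToType := by
    rw [Cardinal.mk_toType, ← Cardinal.ord_aleph 1, Cardinal.card_ord, ← hCH]
    simp
  obtain ⟨e⟩ := Cardinal.eq.1 hc
  refine ⟨fun _ => {n | 1 ≤ n}, fun ξ n => if 1 ≤ n then {e.symm ξ n} else ∅, ?_, ?_, ?_⟩
  · intro ξ
    exact Set.infinite_of_forall_exists_gt fun a => ⟨a + 1, by simp, by omega⟩
  · intro ξ n
    by_cases h : 1 ≤ n
    · simp only [h, if_true, Finset.card_singleton]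
    · simp only [h, if_false, Finset.card_empty, Nat.zero_le]
  · intro f
    refine ⟨e f, 0, fun n hn _ => ?_⟩
    have hn' : 1 ≤ n := hn
    simp only [hn', if_true, Equiv.symm_apply_apply, Finset.mem_singleton]

/-- `P(α)` makes `ℵ₁` partial slaloms miss a function -/
theorem slalom (α : Ordinal.{0})
    (hα : (Cardinal.aleph 1).ord ^ (Ordinal.omega0 + 2) ≤ α % (Cardinal.aleph 2).ord)
    (hP : PathOrIndep α)
    (B : (Cardinal.aleph 1 : Cardinal.{0}).ord.ToType → Set ℕ)
    (S : (Cardinal.aleph 1 : Cardinal.{0}).ord.ToType → ℕ → Finset ℕ)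
    (hB : ∀ ξ, (B ξ).Infinite) (hS : ∀ ξ n, (S ξ n).card ≤ n) :
    ∃ f : ℕ → ℕ, ∀ ξ, {n | n ∈ B ξ ∧ f n ∉ S ξ n}.Infinite := by
  by_contra hcon
  push Not at hcon
  have hPS : Pool.Agent.CT.PSl (Cardinal.aleph 1 : Cardinal.{0}).ord.ToType := by
    refine ⟨B, S, hB, hS, ?_⟩
    intro f
    obtain ⟨ξ, hξ⟩ := hcon f
    obtain ⟨b, hb⟩ := hξ.bddAbove
    refine ⟨ξ, b + 1, ?_⟩
    intro n hn hbn
    by_contra hmem
    have := hb (⟨hn, hmem⟩ : n ∈ {n | n ∈ B ξ ∧ f n ∉ S ξ n})
    omega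
  rw [ord_aleph_one] at hPS
  exact not_P_of_psl α hα hP hPS

/-- (1) If `P(α)` holds for a single ordinal `α` whose remainder modulo `ω₂` is at least the
ordinal power `ω₁ ^ (ω + 2)`, then the continuum hypothesis fails, and no `ℵ₁` infinite partial
slaloms capture all functions. (2) If some countably additive measure which is defined on
all subsets of the real line (a `Measure` for the σ-algebra `⊤`) agrees with the Lebesgue measure
on the Borel sets, then `P(α)` holds for every limit ordinal `α`. -/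
theorem result :
    (∀ α : Ordinal.{0},
      (Cardinal.aleph 1).ord ^ (Ordinal.omega0 + 2) ≤ α % (Cardinal.aleph 2).ord →
      PathOrIndep α →
      Cardinal.aleph 1 < Cardinal.continuum.{0} ∧
      ∀ (B : (Cardinal.aleph 1 : Cardinal.{0}).ord.ToType → Set ℕ)
        (S : (Cardinal.aleph 1 : Cardinal.{0}).ord.ToType → ℕ → Finset ℕ),
        (∀ ξ, (B ξ).Infinite) → (∀ ξ n, (S ξ n).card ≤ n) →
        ∃ f : ℕ → ℕ, ∀ ξ, {n | n ∈ B ξ ∧ f n ∉ S ξ n}.Infinite) ∧
    ((∃ ν : @MeasureTheory.Measure ℝ ⊤,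
        ∀ s : Set ℝ, MeasurableSet s → ν s = MeasureTheory.volume s) →
      ∀ α : Ordinal.{0}, Order.IsSuccLimit α → PathOrIndep α) := by
  refine ⟨fun α hα hP => ⟨not_ch α hα hP, slalom α hα hP⟩, ?_⟩
  rintro ⟨ν, hν⟩ α hα
  exact Pool.Agent.DA.pi_real ν hν (Ordinal.isSuccPrelimit_iff_omega0_dvd.1 hα.isSuccPrelimit)

end Pool.Agent.Results.MP_931ca8_lc.Independence
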