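import Mathlib
import Pool.Agent.Lib_helper68.OG16
import Pool.Agent.Lib_helper80.CP.Main
import Pool.Agent.Lib_helper80.CY.Comb
import Pool.Agent.Lib_helper80.CZ.All
import Pool.Agent.Lib_helper80.CZ.Count

set_option autoImplicit false

open Cardinal Ordinal

namespace Pool.Agent.Results.MP_931ca8_lc.NonMeagerSuffices

/-- `P(α)`: every graph whose vertex set is (the canonical well-ordered set of type) `α` has an
infinite path, i.e. an injective sequence of vertices with consecutive terms adjacent, or a set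
of pairwise non-adjacent vertices of order type exactly `α`. -/
def PathOrIndep (α : Ordinal.{0}) : Prop :=
  ∀ G : SimpleGraph α.ToType,
    (∃ f : ℕ → α.ToType, Function.Injective f ∧ ∀ n, G.Adj (f n) (f (n + 1))) ∨
    (∃ S : Set α.ToType, (∀ x ∈ S, ∀ y ∈ S, ¬ G.Adj x y) ∧
      Ordinal.type (fun x y : S => x < y) = α)

/-- For any `κ` functions from `ℕ` to (the canonical set of cardinality) `θ` there is a function
which agrees with each of them only finitely often. -/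
def EvDiff (θ κ : Cardinal.{0}) : Prop :=
  ∀ E : κ.ord.ToType → ℕ → θ.ord.ToType, ∃ f : ℕ → θ.ord.ToType, ∀ z, {n | f n = E z n}.Finite

/-- `cov(κ) > κ` for the meager ideal of the product space `2 ^ κ`: any `κ` dense open subsets
have a common point. -/
def CovCategory (κ : Cardinal.{0}) : Prop :=
  ∀ D : κ.ord.ToType → Set (κ.ord.ToType → Bool), (∀ i, IsOpen (D i) ∧ Dense (D i)) →
    ∃ x, ∀ i, x ∈ D i

/-- Whenever a finite subset `F i` of `κ` is attached to every `i < δ`, there is `c < κ` such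
that `{i < δ : c ∉ F i}` has order type `δ`. -/
def Omit (κ : Cardinal.{0}) (δ : Ordinal.{0}) : Prop :=
  ∀ F : δ.ToType → Finset κ.ord.ToType, ∃ c,
    Ordinal.type (fun x y : {i : δ.ToType | c ∉ F i} => x < y) = δ

/-- Whenever a finite subset of `κ` is attached to every finite sequence in `κ`, there is an
infinite sequence `x` such that `x m` is not in the set attached to `x (m+1), …, x (m+k)`, for
all `m` and `k`. -/
def RevFree (κ : Cardinal.{0}) : Prop :=
  ∀ E : List κ.ord.ToType → Finset κ.ord.ToType, ∃ x : ℕ → κ.ord.ToType,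
    ∀ m k, x m ∉ E ((List.range k).map fun i => x (m + 1 + i))

/-- `P(ω₁ ^ (ω + 2))` from the combinatorial principle -/
theorem P_of_hh (hH : Pool.Agent.CP.HH Pool.Agent.CP.W1) :
    PathOrIndep ((Cardinal.aleph 1).ord ^ (Ordinal.omega0 + 2)) := by
  set α : Ordinal.{0} := (Cardinal.aleph 1).ord ^ (Ordinal.omega0 + 2) with hα
  have hpos : 0 < (Cardinal.aleph 1 : Cardinal.{0}).ord := by
    rw [pos_iff_ne_zero, Ne, Cardinal.ord_eq_zero]
    exact (Cardinal.aleph_pos 1).ne'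
  have hαpos : 0 < α := Ordinal.opow_pos _ hpos
  have : Nonempty α.ToType := by
    rw [← Cardinal.mk_ne_zero_iff, Cardinal.mk_toType]
    intro h
    rw [Ordinal.card_eq_zero] at h
    exact hαpos.ne' h
  have hω : Ordinal.omega0 ≤ (Cardinal.aleph 1 : Cardinal.{0}).ord := by
    rw [← Cardinal.ord_aleph0]
    exact Cardinal.ord_le_ord.2 (Cardinal.aleph0_le_aleph 1)
  have hcard : Cardinal.mk α.ToType ≤ Cardinal.mk Pool.Agent.CP.W1 := by
    rw [Cardinal.mk_toType, Cardinal.mk_toType, Cardinal.card_ord]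
    refine (Ordinal.card_opow_le_of_omega0_le_left hω _).trans ?_
    rw [Cardinal.card_ord]
    refine max_le le_rfl ?_
    rw [Ordinal.card_add, Ordinal.card_omega0]
    refine (Cardinal.add_le_aleph0.2 ⟨le_rfl, ?_⟩).trans (Cardinal.aleph0_le_aleph 1)
    have h2 : (2 : Ordinal.{0}) = ((2 : ℕ) : Ordinal.{0}) := by norm_num
    rw [h2, Ordinal.card_nat]
    exact (Cardinal.natCast_lt_aleph0 (n := 2)).le
  obtain ⟨r⟩ : Nonempty (α.ToType ↪ Pool.Agent.CP.W1) := hcard
  intro G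
  by_cases hG : ∃ f : ℕ → α.ToType, Function.Injective f ∧ ∀ n, G.Adj (f n) (f (n + 1))
  · exact Or.inl hG
  · right
    obtain ⟨X, hX1, hX2⟩ := Pool.Agent.CP.graph_pos hH
      (Pool.Agent.H68.OG.tg_of_le_typ (Pool.Agent.H68.OG.typ_univ α).ge) r r.injective G hG
    exact ⟨X, hX1, Pool.Agent.H68.OG.typ_eq_of_tg hX2⟩

/-- change of the set of values -/
theorem evdiff_nat {κ : Cardinal.{0}} (h : EvDiff ℵ₀ κ) :
    Pool.Agent.CZ.EDT ℕ κ.ord.ToType := by
  intro E
  have e : Nonempty (ℕ ≃ (ℵ₀ : Cardinal.{0}).ord.ToType) := by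
    rw [← Cardinal.eq, Cardinal.mk_toType, Cardinal.card_ord, Cardinal.mk_nat]
  obtain ⟨e⟩ := e
  obtain ⟨f, hf⟩ := h fun z n => e (E z n)
  refine ⟨fun n => e.symm (f n), fun z => (hf z).subset ?_⟩
  intro n hn
  have h1 : e.symm (f n) = E z n := hn
  show f n = e (E z n)
  rw [← h1, Equiv.apply_symm_apply]

theorem okc_of {κ : Cardinal.{0}} (h : EvDiff ℵ₀ κ ∨ CovCategory κ) : Pool.Agent.CZ.OkC κ := by
  rcases h with h | h
  · exact Or.inl (evdiff_nat h)
  · exact Or.inr h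

/-- (1) If any `κ` functions `ℕ → θ` have an eventually different one, then `P(α)` depends only
on the remainder of `α` on division by `θ⁺`, for all `α` divisible by `ω` with `|α| ≤ κ`; the
hypothesis holds if `κ` and `2 ^ ℵ₀` are less than `θ ^ ℵ₀`. (2) If any `κ` functions `ℕ → ℕ`
have an eventually different one, or `cov(κ) > κ`, then `P(α)` holds for all limit ordinals
`α < (κ⁺) ^ (κ + 2)` (ordinal power). (3) `P(α)` is the conjunction of its levels
`P(κ * ((α % κ⁺) / κ))`. (4), (5): consequences for all `α` if `P` holds below a regular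
uncountable cardinal. (6) If `P(ω₁ ^ (ω + 2))` fails, then some `ℵ₁` functions dominate. -/
theorem result :
    -- (1) eventually different functions remove the levels between `θ` and `κ`
    (∀ θ κ : Cardinal.{0}, ℵ₀ ≤ θ → ℵ₀ ≤ κ → EvDiff θ κ →
      ∀ α : Ordinal.{0}, ω ∣ α → α.card ≤ κ →
        (PathOrIndep α ↔ PathOrIndep (α % (Order.succ θ).ord))) ∧
    (∀ θ κ : Cardinal.{0}, ℵ₀ ≤ θ → κ < θ ^ ℵ₀ → (2 : Cardinal.{0}) ^ ℵ₀ < θ ^ ℵ₀ →
      EvDiff θ κ) ∧
    -- (2)
    (∀ κ : Cardinal.{0}, ℵ₀ ≤ κ → EvDiff ℵ₀ κ ∨ CovCategory κ →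
      ∀ α : Ordinal.{0}, Order.IsSuccLimit α → α < (Order.succ κ).ord ^ (κ.ord + 2) →
        PathOrIndep α) ∧
    -- (3) the levels are independent of each other
    (∀ α : Ordinal.{0}, ω ∣ α → (PathOrIndep α ↔
      ∀ κ : Cardinal.{0}, ℵ₀ ≤ κ → PathOrIndep (κ.ord * (α % (Order.succ κ).ord / κ.ord)))) ∧
    -- (4)
    (∀ lam : Cardinal.{0}, lam.IsRegular → ℵ₀ < lam →
      (∀ α < lam.ord, Order.IsSuccLimit α → PathOrIndep α) →
      (RevFree lam → ∀ α : Ordinal.{0}, Order.IsSuccLimit α → PathOrIndep α) ∧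
      ((∀ μ < lam, (2 : Cardinal.{0}) ^ μ ≤ lam) →
        (∀ α : Ordinal.{0}, Order.IsSuccLimit α → PathOrIndep α) → RevFree lam) ∧
      ((∀ μ < lam, (2 : Cardinal.{0}) ^ μ ≤ lam) →
        (∀ κ : Cardinal.{0}, lam ≤ κ → (2 : Cardinal.{0}) ^ κ = Order.succ κ) →
        ∀ α : Ordinal.{0}, ω ∣ α → (PathOrIndep α ↔
          ∀ κ : Cardinal.{0}, lam ≤ κ → κ.IsRegular →
            Omit κ (α % (Order.succ κ).ord / κ.ord)))) ∧
    -- (5) the least counterexample
    (∀ n : ℕ, n ≤ 2 →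
      (∀ α < (Cardinal.aleph (n + 1)).ord, Order.IsSuccLimit α → PathOrIndep α) →
      (2 : Cardinal.{0}) ^ Cardinal.aleph n = Cardinal.aleph (n + 1) →
      IsLeast {α : Ordinal.{0} | Order.IsSuccLimit α ∧ ¬ PathOrIndep α}
        ((Cardinal.aleph (n + 1)).ord ^ ((Cardinal.aleph n).ord + 2))) ∧
    -- (6)
    (¬ PathOrIndep ((Cardinal.aleph 1).ord ^ (Ordinal.omega0 + 2)) →
      ∃ D : (Cardinal.aleph 1 : Cardinal.{0}).ord.ToType → ℕ → ℕ,
        ∀ f : ℕ → ℕ, ∃ ξ, ∀ n, f n ≤ D ξ n) := by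
  have hdvd : ∀ α : Ordinal.{0}, Order.IsSuccLimit α → ω ∣ α := fun α hα =>
    Ordinal.isSuccPrelimit_iff_omega0_dvd.1 hα.isSuccPrelimit
  have hbelow : ∀ lam : Cardinal.{0}, (∀ α < lam.ord, Order.IsSuccLimit α → PathOrIndep α) →
      ∀ α : Ordinal.{0}, ω ∣ α → α.card < lam → Pool.Agent.H68.OG.PI α := by
    intro lam h α hα hc
    rcases eq_or_ne α 0 with rfl | h0
    · exact Pool.Agent.H68.OG.pi_zero
    · exact h α (Cardinal.lt_ord.2 hc) (Ordinal.isSuccLimit_iff_omega0_dvd.2 ⟨h0, hα⟩)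
  refine ⟨?_, ?_, ?_, ?_, ?_, ?_, ?_⟩
  · intro θ κ hθ hκ hE α hα hακ
    have hΘ : #θ.ord.ToType = θ := by rw [Cardinal.mk_toType, Cardinal.card_ord]
    have hinf : Infinite θ.ord.ToType := by
      rw [Cardinal.infinite_iff, hΘ]
      exact hθ
    refine ⟨fun h => Pool.Agent.CQ.pi_mod h, fun h => ?_⟩
    refine Pool.Agent.CZ.pi_mod_of_edt (Θ := θ.ord.ToType) hκ hE hα hακ ?_
    rw [hΘ]
    exact h
  · intro θ κ hθ h1 h2
    have hΘ : #θ.ord.ToType = θ := by rw [Cardinal.mk_toType, Cardinal.card_ord]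
    have hinf : Infinite θ.ord.ToType := by
      rw [Cardinal.infinite_iff, hΘ]
      exact hθ
    refine Pool.Agent.CZ.edt_of_lt ?_ ?_
    · rw [hΘ, Cardinal.mk_toType, Cardinal.card_ord]
      exact h1
    · rw [hΘ]
      exact h2
  · intro κ hκ hC α hα hlt
    exact Pool.Agent.CZ.pi_up hκ (fun β hβ hβκ => Pool.Agent.CZ.pi_okc hκ (okc_of hC) hβ hβκ)
      (hdvd α hα) hlt
  · exact fun α hα => Pool.Agent.CY.pi_iff_levels α hα
  · intro lam hlam hlam0 hP
    refine ⟨fun hR α hα => ?_, fun h2 hA => ?_, fun h2 hgch α hα => ?_⟩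
    · exact Pool.Agent.CZ.pi_all_of (hbelow lam hP) hlam hlam0 hR (hdvd α hα)
    · exact Pool.Agent.CZ.rf_of_conj hlam hlam0 h2 hA
    · have h := Pool.Agent.CZ.pi_gch_lam (hbelow lam hP) hlam h2 hgch α hα
      refine h.trans ⟨fun h3 κ hle hκ => h3 κ hle hκ (hlam0.trans_le hle),
        fun h3 κ hle hκ _ => h3 κ hle hκ⟩
  · intro n hn hP h2
    have e : (Cardinal.aleph (n + 1) : Cardinal.{0}) = Order.succ (Cardinal.aleph n) := by
      rw [Cardinal.succ_aleph]
    rw [e] at hP h2 ⊢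
    refine Pool.Agent.CZ.least_point (Cardinal.aleph0_le_aleph n) (fun α hα hακ => ?_)
      (Pool.Agent.CZ.not_part_le2 n hn) h2
    exact hbelow _ hP α hα (Order.lt_succ_iff.2 hακ)
  · intro hP
    by_contra hcon
    push Not at hcon
    refine hP (P_of_hh (Pool.Agent.CP.hh_of_ndom Pool.Agent.CP.w1_equiv.some ?_))
    intro D
    obtain ⟨f, hf⟩ := hcon D
    exact ⟨f, fun z => hf z⟩

end Pool.Agent.Results.MP_931ca8_lc.NonMeagerSuffices
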