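import Mathlib
import Pool.Agent.Lib_helper68.OG16
import Pool.Agent.Lib_helper80.CW.Level2

set_option autoImplicit false

open Cardinal Ordinal

namespace Pool.Agent.Results.MP_931ca8_lc.SmallLevels

/-- `P(α)`: every graph whose vertex set is (the canonical well-ordered set of type) `α` has an
infinite path, i.e. an injective sequence of vertices with consecutive terms adjacent, or a set
of pairwise non-adjacent vertices of order type exactly `α`. -/
def PathOrIndep (α : Ordinal.{0}) : Prop :=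
  ∀ G : SimpleGraph α.ToType,
    (∃ f : ℕ → α.ToType, Function.Injective f ∧ ∀ n, G.Adj (f n) (f (n + 1))) ∨
    (∃ S : Set α.ToType, (∀ x ∈ S, ∀ y ∈ S, ¬ G.Adj x y) ∧
      Ordinal.type (fun x y : S => x < y) = α)

/-- `κ` has countable cofinality, or `μ ^ cof κ < κ` for all `μ < κ`. -/
def PowSmall (κ : Cardinal.{0}) : Prop := κ.ord.cof = ℵ₀ ∨ ∀ μ < κ, μ ^ κ.ord.cof < κ

/-- For every uncountable cardinal `κ` which is not as in `PowSmall`, the remainder of `α` on
division by (the initial ordinal of) the successor cardinal `κ⁺` is less than the ordinal power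
`κ ^ (ν + 2)` for some infinite cardinal `ν < κ`. -/
def LevelsSmall (α : Ordinal.{0}) : Prop :=
  ∀ κ : Cardinal.{0}, ℵ₀ < κ → ¬ PowSmall κ →
    ∃ ν : Cardinal.{0}, ℵ₀ ≤ ν ∧ ν < κ ∧ α % (Order.succ κ).ord < κ.ord ^ (ν.ord + 2)

/-- (1) Let `κ` be an uncountable cardinal of countable cofinality, or with `μ ^ cof κ < κ` for
all `μ < κ`. Then `P(κ * δ)` holds for all ordinals `δ` of cardinality at most `κ`, and
`P(κ * δ + ε)` holds if and only if `P(ε)` holds, for all these `δ` and all `ε < κ` divisible by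
`ω`. (2) `P(α)` holds for every limit ordinal `α` with small levels. (3) For all infinite
cardinals `ν < κ` and all ordinals `δ` with `κ * δ < κ ^ (ν + 2)` (ordinal arithmetic) and every
limit ordinal `ε < κ`, `P(κ * δ + ε)` holds if and only if `P(ε)` holds. -/
theorem result :
    (∀ κ : Cardinal.{0}, ℵ₀ < κ → PowSmall κ → ∀ δ : Ordinal.{0}, δ.card ≤ κ →
      PathOrIndep (κ.ord * δ) ∧
      ∀ ε : Ordinal.{0}, ε < κ.ord → ω ∣ ε →
        (PathOrIndep (κ.ord * δ + ε) ↔ PathOrIndep ε)) ∧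
    (∀ α : Ordinal.{0}, Order.IsSuccLimit α → LevelsSmall α → PathOrIndep α) ∧
    (∀ κ ν : Cardinal.{0}, ℵ₀ ≤ ν → ν < κ →
      ∀ δ : Ordinal.{0}, κ.ord * δ < κ.ord ^ (ν.ord + 2) →
      ∀ ε : Ordinal.{0}, ε < κ.ord → Order.IsSuccLimit ε →
        (PathOrIndep (κ.ord * δ + ε) ↔ PathOrIndep ε)) := by
  refine ⟨fun κ hκ hp δ hδ => ⟨?_, fun ε hε hd => ?_⟩, fun α hl hα => ?_,
    fun κ ν hν hνκ δ hlt ε hε hl => ?_⟩
  · exact Pool.Agent.CW.pi_mul_fp hκ (Pool.Agent.CW.fp_hl hκ hp) hδ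
  · exact Pool.Agent.CW.pi_iff_fp hκ (Pool.Agent.CW.fp_hl hκ hp) δ ε hδ hε hd
  · exact Pool.Agent.CW.pi_small2 α (Ordinal.isSuccPrelimit_iff_omega0_dvd.1 hl.isSuccPrelimit) hα
  · exact Pool.Agent.H68.OG.pi_iff' hν hνκ δ hlt ε hε hl

end Pool.Agent.Results.MP_931ca8_lc.SmallLevels
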